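import Pool.Agent.N347.LA.Fac
import Pool.Agent.N945.TB_SPLIT
import Pool.Agent.N265.TB_WTS
import Pool.Agent.N124.TB_REG

set_option autoImplicit false

/-! Project TB: total colourings of blow-ups of regular graphs. -/

namespace Pool.Agent.N347.TB

open Finset

/-- Greedy colouring. -/
theorem greedy {V : Type} [Finite V] (H : SimpleGraph V) (d : ℕ)
    (hH : ∀ v, (H.neighborSet v).ncard ≤ d) : H.Colorable (d + 1) := by
  classical
  have := Fintype.ofFinite V
  have key : ∀ s : Finset V, ∃ c : V → Fin (d + 1), ∀ u ∈ s, ∀ v ∈ s, H.Adj u v → c u ≠ c v := by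
    intro s
    induction s using Finset.induction_on with
    | empty => exact ⟨fun _ => 0, by simp⟩
    | insert a s ha ih =>
      obtain ⟨c, hc⟩ := ih
      have h1 : ((H.neighborSet a).toFinset.image c).card < Fintype.card (Fin (d + 1)) := by
        rw [Fintype.card_fin]
        refine lt_of_le_of_lt card_image_le ?_
        have := hH a
        rw [Set.ncard_eq_toFinset_card'] at this
        omega
      obtain ⟨k, hk⟩ : ∃ k, k ∉ (H.neighborSet a).toFinset.image c := by
        by_contra h
        push Not at h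
        have := card_le_card (fun x (_ : x ∈ (univ : Finset (Fin (d + 1)))) => h x)
        rw [card_univ] at this
        omega
      have hk2 : ∀ v, H.Adj a v → c v ≠ k := by
        intro v hv h
        exact hk (mem_image.mpr ⟨v, by simpa using hv, h⟩)
      refine ⟨Function.update c a k, fun u hu v hv huv => ?_⟩
      have hne := huv.ne
      by_cases hua : u = a
      · subst hua
        rw [Function.update_self, Function.update_of_ne hne.symm]
        exact fun h => hk2 v huv h.symm
      · by_cases hva : v = a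
        · subst hva
          rw [Function.update_self, Function.update_of_ne hne]
          exact fun h => hk2 u huv.symm h
        · rw [Function.update_of_ne hua, Function.update_of_ne hva]
          exact hc u ((mem_insert.mp hu).resolve_left hua) v ((mem_insert.mp hv).resolve_left hva) huv
  obtain ⟨c, hc⟩ := key univ
  exact ⟨SimpleGraph.Coloring.mk c fun {u v} h => hc u (mem_univ _) v (mem_univ _) h⟩

/-- Total colouring of the blow-up of a regular graph. -/
theorem regular {V : Type} [Fintype V] [DecidableEq V] (H : SimpleGraph V) (d m r : ℕ)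
    (hd : 1 ≤ d) (hH : ∀ v, (H.neighborSet v).ncard = d) (c : V → Fin r)
    (hc : ∀ u v, H.Adj u v → c u ≠ c v) (hm : Even m) (hr : 2 ≤ r)
    (hrd : r ≤ d * m + 2)
    (hcap : (r - 2) * (2 * ((m + 2 * d - 1) / (2 * d))) ≤ m * m) :
    ∃ g : V × Fin m → V × Fin m → ℕ,
      (∀ x y, H.Adj x.1 y.1 → g x y = g y x ∧ g x y < d * m + 2 ∧ g x y ≠ c x.1) ∧
      ∀ x y z, H.Adj x.1 y.1 → H.Adj x.1 z.1 → y ≠ z → g x y ≠ g x z := by
  classical
  obtain ⟨x, hxs, hx0, hxr, hxm⟩ := Pool.Agent.N265.TBWTS.wts H d m hd hm hH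
  obtain ⟨a, ha⟩ := hm
  -- the special classes
  set sp : ℕ → V → V → ℕ := fun l u v =>
    if ((c u : ℕ) = l ∨ (c v : ℕ) = l) then 0 else x u v with hsp
  have hsps : ∀ l u v, sp l u v = sp l v u := by
    intro l u v
    simp only [hsp, or_comm, hxs u v]
  -- sums of the special classes
  have hsum : ∀ u v, H.Adj u v → ∑ l ∈ range r, sp l u v = (r - 2) * x u v := by
    intro u v huv
    have h1 : ∀ l ∈ range r, sp l u v = if (l ∈ ({(c u : ℕ), (c v : ℕ)} : Finset ℕ)) then 0 else x u v := by
      intro l _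
      simp only [hsp, mem_insert, mem_singleton, eq_comm]
    rw [sum_congr rfl h1, sum_ite, sum_const_zero, zero_add, sum_const, smul_eq_mul]
    congr 1
    have h2 : (range r).filter (fun l => l ∉ ({(c u : ℕ), (c v : ℕ)} : Finset ℕ)) =
        range r \ {(c u : ℕ), (c v : ℕ)} := by
      ext l; simp [mem_sdiff]
    rw [h2, card_sdiff_of_subset, card_range, card_pair]
    · exact fun h => hc u v huv (Fin.ext h)
    · intro l hl
      rcases mem_insert.mp hl with h | h
      · rw [h]; exact mem_range.mpr (c u).2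
      · rw [mem_singleton.mp h]; exact mem_range.mpr (c v).2
  have hle : ∀ u v, (r - 2) * x u v ≤ m * m := by
    intro u v
    exact le_trans (Nat.mul_le_mul_left _ (hxm u v)) hcap
  -- the remainder
  set T : V → V → ℕ := fun u v => if H.Adj u v then m * m - (r - 2) * x u v else 0 with hT
  have hTs : ∀ u v, T u v = T v u := by
    intro u v
    simp only [hT, H.adj_comm u v, hxs u v]
  have hTd : ∀ u, Even (T u u) := by
    intro u
    simp [hT]
  have hdeg : ∀ u, (univ.filter fun v => H.Adj u v).card = d := by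
    intro u
    rw [← hH u, Set.ncard_eq_toFinset_card']
    congr 1
    ext v
    simp
  have hTsum : ∀ u, ∑ v, T u v = (d * m + 2 - r) * m := by
    intro u
    have h1 : ∑ v, T u v + ∑ v, (r - 2) * x u v = d * (m * m) := by
      rw [← sum_add_distrib]
      have h2 : ∀ v, T u v + (r - 2) * x u v = if H.Adj u v then m * m else 0 := by
        intro v
        by_cases h : H.Adj u v
        · simp only [hT, if_pos h]
          exact Nat.sub_add_cancel (hle u v)
        · simp only [hT, if_neg h, hx0 u v h, mul_zero, add_zero]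
      rw [sum_congr rfl fun v _ => h2 v, ← sum_filter, sum_const, hdeg, smul_eq_mul]
    rw [← mul_sum, hxr u] at h1
    have h3 : (d * m + 2 - r) + (r - 2) = d * m := by omega
    have h4 : (d * m + 2 - r) * m + (r - 2) * m = d * (m * m) := by
      rw [← Nat.add_mul, h3, mul_assoc]
    omega
  obtain ⟨C, hCs, hCe, hCr, hCT, -⟩ := LA.factors (d * m + 2 - r) T hTs hTd
    (fun _ _ _ => 0) (fun _ _ _ => rfl) (fun _ _ => rfl) (fun _ => 0) (fun _ => a) (fun _ => m)
    (fun _ _ => by simp) (fun _ => by omega) hTsum (fun _ _ => by simp)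
  -- all the classes
  set w : ℕ → V → V → ℕ := fun l u v =>
    if l < r then sp l u v else
      if h : l - r < d * m + 2 - r then (if H.Adj u v then C ⟨l - r, h⟩ u v else 0) else 0 with hw
  have hC0 : ∀ i u v, ¬ H.Adj u v → C i u v = 0 := by
    intro i u v h
    have h1 : ∑ i, C i u v = 0 := by rw [hCT]; simp [hT, h]
    exact (sum_eq_zero_iff.mp h1) i (mem_univ _)
  have hws : ∀ l u v, w l u v = w l v u := by
    intro l u v
    simp only [hw, hsps l u v, H.adj_comm u v]
    split_ifs with h1 h2 h3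
    · rfl
    · exact hCs _ _ _
    · rfl
    · rfl
  have hw0 : ∀ l u v, ¬ H.Adj u v → w l u v = 0 := by
    intro l u v h
    simp only [hw, hsp, if_neg h, hx0 u v h]
    split_ifs <;> rfl
  have hw1 : ∀ u v, H.Adj u v → ∑ l ∈ range (d * m + 2), w l u v = m * m := by
    intro u v huv
    have h1 : d * m + 2 = r + (d * m + 2 - r) := by omega
    rw [h1, sum_range_add]
    have h2 : ∑ l ∈ range r, w l u v = (r - 2) * x u v := by
      rw [← hsum u v huv]
      refine sum_congr rfl fun l hl => ?_
      simp only [hw, if_pos (mem_range.mp hl)]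
    have h3 : ∑ l ∈ range (d * m + 2 - r), w (r + l) u v = m * m - (r - 2) * x u v := by
      have h4 : ∑ i, C i u v = m * m - (r - 2) * x u v := by
        rw [hCT]; simp only [hT, if_pos huv]
      rw [← h4, Finset.sum_range]
      refine sum_congr rfl fun i _ => ?_
      have h5 : ¬ r + (i : ℕ) < r := by omega
      have h6 : r + (i : ℕ) - r < d * m + 2 - r := by
        have := i.2
        omega
      simp only [hw, if_neg h5, dif_pos h6, if_pos huv]
      congr 1
      exact Fin.ext (by simp)
    rw [h2, h3]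
    exact Nat.add_sub_cancel' (hle u v)
  have hw2 : ∀ l u, l < d * m + 2 → ∑ v, w l u v ≤ m := by
    intro l u hl
    by_cases h : l < r
    · rw [← hxr u]
      refine sum_le_sum fun v _ => ?_
      simp only [hw, if_pos h, hsp]
      split_ifs
      · exact Nat.zero_le _
      · exact le_refl _
    · have h6 : l - r < d * m + 2 - r := by omega
      rw [← hCr ⟨l - r, h6⟩ u]
      refine sum_le_sum fun v _ => ?_
      simp only [hw, if_neg h, dif_pos h6]
      split_ifs
      · exact le_refl _
      · exact Nat.zero_le _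
  obtain ⟨g, hg1, hg2⟩ := Pool.Agent.N945.TBSPLIT.split H m (d * m + 2) w hws hw0 hw1 hw2
  refine ⟨g, fun x y hxy => ⟨(hg1 x y hxy).1, (hg1 x y hxy).2.1, fun h => ?_⟩, hg2⟩
  have h1 := (hg1 x y hxy).2.2
  rw [h] at h1
  have h2 : w (c x.1 : ℕ) x.1 y.1 = 0 := by
    simp only [hw, if_pos (c x.1).2, hsp, true_or, if_true]
  omega

/-- Total colouring of graphs with a homomorphism with small fibres. -/
theorem main {V W : Type} [Finite V] [Finite W] (H : SimpleGraph V) (G : SimpleGraph W)
    (d m r : ℕ) (hH : ∀ v, (H.neighborSet v).ncard ≤ d) (hr : H.Colorable r) (hm : Even m)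
    (hmr : 2 * r ≤ m * m + 4) (f : W → V) (hfG : ∀ x y, G.Adj x y → H.Adj (f x) (f y))
    (hf : ∀ v, (f ⁻¹' {v}).ncard ≤ m) :
    ∃ (a : W → Fin (d * m + 2)) (b : Sym2 W → Fin (d * m + 2)),
      ∀ x y, G.Adj x y → a x ≠ a y ∧ b s(x, y) ≠ a x ∧
        ∀ z, G.Adj x z → z ≠ y → b s(x, y) ≠ b s(x, z) := by
  classical
  have := Fintype.ofFinite V
  have := Fintype.ofFinite W
  rcases Nat.eq_zero_or_pos m with rfl | hm0
  · -- no vertices
    have he : IsEmpty W := by
      refine ⟨fun x => ?_⟩
      have h1 := hf (f x)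
      have h2 : (f ⁻¹' {f x}).ncard = 0 := by omega
      rw [Set.ncard_eq_zero] at h2
      have h3 : x ∈ f ⁻¹' {f x} := rfl
      rw [h2] at h3
      exact h3
    exact ⟨fun _ => ⟨0, by omega⟩, fun _ => ⟨0, by omega⟩, fun x => (he.false x).elim⟩
  rcases Nat.eq_zero_or_pos d with rfl | hd
  · -- no edges
    refine ⟨fun _ => ⟨0, by omega⟩, fun _ => ⟨0, by omega⟩, fun x y hxy => ?_⟩
    have h1 := hH (f x)
    have h2 : (H.neighborSet (f x)).ncard = 0 := by omega
    rw [Set.ncard_eq_zero] at h2
    have h3 : f y ∈ H.neighborSet (f x) := hfG x y hxy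
    rw [h2] at h3
    exact h3.elim
  -- the number of colours of `H`
  obtain ⟨q, hq2, hqd, hqr, hqc⟩ : ∃ q, 2 ≤ q ∧ q ≤ d + 1 ∧ 2 * q ≤ m * m + 4 ∧ H.Colorable q := by
    refine ⟨max 2 (min r (d + 1)), le_max_left _ _, by omega, by omega, ?_⟩
    rcases le_total r (d + 1) with h | h
    · exact hr.mono (by omega)
    · exact (greedy H d hH).mono (by omega)
  obtain ⟨V', hV', H', j, hj, hjH, hreg, hcol⟩ := Pool.Agent.N124.TBREG.reg H d q hq2 hH hqc
  obtain ⟨c⟩ := hcol
  have hdm : d ≤ d * m := Nat.le_mul_of_pos_right d hm0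
  have hcap : (q - 2) * (2 * ((m + 2 * d - 1) / (2 * d))) ≤ m * m := by
    by_cases hmd : m ≤ 2 * d
    · have h1 : (m + 2 * d - 1) / (2 * d) ≤ 1 := by
        have : (m + 2 * d - 1) / (2 * d) < 2 := by
          rw [Nat.div_lt_iff_lt_mul (by omega)]
          omega
        omega
      calc (q - 2) * (2 * ((m + 2 * d - 1) / (2 * d))) ≤ (q - 2) * (2 * 1) :=
            Nat.mul_le_mul_left _ (Nat.mul_le_mul_left _ h1)
        _ ≤ m * m := by omega
    · push Not at hmd
      have h1 : (m + 2 * d - 1) / (2 * d) * (2 * d) ≤ m + 2 * d - 1 := Nat.div_mul_le_self _ _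
      calc (q - 2) * (2 * ((m + 2 * d - 1) / (2 * d))) ≤
            d * (2 * ((m + 2 * d - 1) / (2 * d))) := Nat.mul_le_mul_right _ (by omega)
        _ = (m + 2 * d - 1) / (2 * d) * (2 * d) := by ring
        _ ≤ m + 2 * d - 1 := h1
        _ ≤ m * m := by
          have : 2 * m ≤ m * m := Nat.mul_le_mul_right m (by omega)
          omega
  obtain ⟨g, hg1, hg2⟩ := regular H' d m q hd hreg c (fun u v h => c.valid h) hm hq2
    (by omega) hcap
  -- the embedding of `W`
  have hemb : ∃ e : W → Fin m, ∀ x y, f x = f y → e x = e y → x = y := by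
    have h1 : ∀ v, ∃ e : W → Fin m, ∀ x y, f x = v → f y = v → e x = e y → x = y := by
      intro v
      have h2 : Fintype.card (f ⁻¹' {v} : Set W) ≤ Fintype.card (Fin m) := by
        rw [Fintype.card_fin, ← Nat.card_eq_fintype_card, Nat.card_coe_set_eq]
        exact hf v
      obtain ⟨i⟩ := Function.Embedding.nonempty_of_card_le h2
      refine ⟨fun x => if h : f x = v then i ⟨x, h⟩ else ⟨0, hm0⟩, fun x y hx hy h => ?_⟩
      simp only [dif_pos hx, dif_pos hy] at h
      exact congrArg Subtype.val (i.injective h)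
    choose e he using h1
    exact ⟨fun x => e (f x) x, fun x y h1 h2 => he (f x) x y rfl h1.symm (by
      have h3 : e (f x) x = e (f y) y := h2
      rw [h3, h1])⟩
  obtain ⟨e, he⟩ := hemb
  set φ : W → V' × Fin m := fun x => (j (f x), e x) with hφ
  have hφi : Function.Injective φ := by
    intro x y h
    have h1 := congrArg Prod.fst h
    have h2 := congrArg Prod.snd h
    exact he x y (hj h1) h2
  have hadj : ∀ x y, G.Adj x y → H'.Adj (φ x).1 (φ y).1 := fun x y h => (hjH _ _).mp (hfG x y h)
  have hb : ∀ x y, G.Adj x y → g (φ (s(x, y) : Sym2 W).out.1) (φ (s(x, y) : Sym2 W).out.2) =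
      g (φ x) (φ y) := by
    intro x y hxy
    have h1 : s((s(x, y) : Sym2 W).out.1, (s(x, y) : Sym2 W).out.2) = s(x, y) := by
      exact Quot.out_eq _
    rcases Sym2.eq_iff.mp h1 with ⟨h2, h3⟩ | ⟨h2, h3⟩
    · rw [h2, h3]
    · rw [h2, h3]
      exact ((hg1 _ _ (hadj x y hxy)).1).symm
  refine ⟨fun x => ⟨(c (φ x).1 : ℕ), lt_of_lt_of_le (c (φ x).1).2 (by omega)⟩,
    fun s => if h : g (φ s.out.1) (φ s.out.2) < d * m + 2 then
      ⟨g (φ s.out.1) (φ s.out.2), h⟩ else ⟨0, by omega⟩, fun x y hxy => ?_⟩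
  have hlt : ∀ x y, G.Adj x y → g (φ (s(x, y) : Sym2 W).out.1) (φ (s(x, y) : Sym2 W).out.2) <
      d * m + 2 := fun x y hxy => by
    rw [hb x y hxy]
    exact (hg1 _ _ (hadj x y hxy)).2.1
  refine ⟨fun h => ?_, fun h => ?_, fun z hz hzy h => ?_⟩
  · have h1 : (c (φ x).1 : ℕ) = (c (φ y).1 : ℕ) := by simpa using congrArg Fin.val h
    exact c.valid (hadj x y hxy) (Fin.ext h1)
  · beta_reduce at h
    rw [dif_pos (hlt x y hxy)] at h
    have h1 := congrArg Fin.val h
    simp only at h1
    rw [hb x y hxy] at h1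
    exact (hg1 _ _ (hadj x y hxy)).2.2 h1
  · beta_reduce at h
    rw [dif_pos (hlt x y hxy), dif_pos (hlt x z hz)] at h
    have h1 := congrArg Fin.val h
    simp only at h1
    rw [hb x y hxy, hb x z hz] at h1
    exact hg2 (φ x) (φ y) (φ z) (hadj x y hxy) (hadj x z hz) (fun h2 => hzy (hφi h2).symm) h1

end Pool.Agent.N347.TB
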